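import Pool.Agent.H181R5.NLT.Stmts

/-!
Project H181-NLT, task CAT: concatenation of two subdivisions of transitive tournaments.
-/

set_option autoImplicit false

namespace Pool.Agent.H254R3.NLTCat

open Finset Pool.Agent.H181R5.NLT

/-- the order on the sum -/
def lt' {a b : ℕ} : Fin a ⊕ Fin b → Fin a ⊕ Fin b → Prop
  | .inl i, .inl j => i < j
  | .inl _, .inr _ => True
  | .inr _, .inl _ => False
  | .inr i, .inr j => i < j

theorem lt'_of {a b : ℕ} (i j : Fin (a + b)) (h : i < j) :
    lt' (finSumFinEquiv.symm i) (finSumFinEquiv.symm j) := by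
  obtain ⟨s, rfl⟩ := finSumFinEquiv.surjective i
  obtain ⟨t, rfl⟩ := finSumFinEquiv.surjective j
  rw [Equiv.symm_apply_apply, Equiv.symm_apply_apply]
  rcases s with i | i <;> rcases t with j | j
  · rw [finSumFinEquiv_apply_left, finSumFinEquiv_apply_left, Fin.lt_def, Fin.val_castAdd,
      Fin.val_castAdd] at h
    exact h
  · trivial
  · exfalso
    simp only [finSumFinEquiv_apply_left, finSumFinEquiv_apply_right, Fin.lt_def,
      Fin.val_natAdd, Fin.val_castAdd] at h
    have := j.2
    omega
  · rw [finSumFinEquiv_apply_right, finSumFinEquiv_apply_right, Fin.lt_def, Fin.val_natAdd,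
      Fin.val_natAdd] at h
    have h1 : (i : ℕ) < j := by omega
    exact h1

/-- branch vertices -/
def uS {V : Type} {a b : ℕ} (uA : Fin a → V) (uB : Fin b → V) : Fin a ⊕ Fin b → V
  | .inl i => uA i
  | .inr i => uB i

/-- lengths -/
def lS {a b : ℕ} (lA : Fin a → Fin a → ℕ) (lB : Fin b → Fin b → ℕ) :
    Fin a ⊕ Fin b → Fin a ⊕ Fin b → ℕ
  | .inl i, .inl j => lA i j
  | .inl _, .inr _ => 1
  | .inr _, .inl _ => 0
  | .inr i, .inr j => lB i j

/-- paths -/
def pS {V : Type} {a b : ℕ} (uA : Fin a → V) (uB : Fin b → V) (pA : Fin a → Fin a → ℕ → V)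
    (pB : Fin b → Fin b → ℕ → V) : Fin a ⊕ Fin b → Fin a ⊕ Fin b → ℕ → V
  | .inl i, .inl j => pA i j
  | .inl i, .inr j => fun t => if t = 0 then uA i else uB j
  | .inr i, .inl _ => fun _ => uB i
  | .inr i, .inr j => pB i j

theorem taskCat : TaskCat := by
  intro V _ D A B S a b hA hB hAB hD hsA hsB
  obtain ⟨uA, lA, pA, A1, A2, A3, A4, A5, A6, A7⟩ := hsA
  obtain ⟨uB, lB, pB, B1, B2, B3, B4, B5, B6, B7⟩ := hsB
  have hne : ∀ x ∈ A, ∀ y ∈ B, x ≠ y := fun x hx y hy h =>
    (Finset.disjoint_left.1 hAB) hx (h ▸ hy)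
  refine ⟨fun k => uS uA uB (finSumFinEquiv.symm k),
    fun i j => lS lA lB (finSumFinEquiv.symm i) (finSumFinEquiv.symm j),
    fun i j => pS uA uB pA pB (finSumFinEquiv.symm i) (finSumFinEquiv.symm j),
    ?_, ?_, ?_, ?_, ?_, ?_, ?_⟩
  · have h : Function.Injective (uS uA uB) := by
      rintro (i | i) (j | j) h
      · rw [A1 (show uA i = uA j from h)]
      · exact absurd (show uA i = uB j from h) (hne _ (A2 i) _ (B2 j))
      · exact absurd (show uB i = uA j from h).symm (hne _ (A2 j) _ (B2 i))
      · rw [B1 (show uB i = uB j from h)]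
    exact h.comp finSumFinEquiv.symm.injective
  · intro i
    have h : ∀ s, uS uA uB s ∈ S := by
      rintro (i | i)
      · exact hA (A2 i)
      · exact hB (B2 i)
    exact h _
  · intro i j hij
    have h : ∀ s t : Fin a ⊕ Fin b, lt' s t → 1 ≤ lS lA lB s t ∧
        pS uA uB pA pB s t 0 = uS uA uB s ∧
        pS uA uB pA pB s t (lS lA lB s t) = uS uA uB t := by
      rintro (i | i) (j | j) h
      · exact A3 i j h
      · exact ⟨le_rfl, by simp [pS, uS], by simp [pS, uS, lS]⟩
      · exact absurd h id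
      · exact B3 i j h
    exact h _ _ (lt'_of i j hij)
  · intro i j hij
    have h : ∀ s t : Fin a ⊕ Fin b, lt' s t → ∀ n, n < lS lA lB s t →
        D (pS uA uB pA pB s t n) (pS uA uB pA pB s t (n + 1)) := by
      rintro (i | i) (j | j) h
      · exact A4 i j h
      · intro n hn
        have hn0 : n = 0 := by
          have : n < 1 := hn
          omega
        subst hn0
        exact hD _ (A2 i) _ (B2 j)
      · exact absurd h id
      · exact B4 i j h
    exact h _ _ (lt'_of i j hij)
  · intro i j hij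
    have h : ∀ s t : Fin a ⊕ Fin b, lt' s t → ∀ n, 0 < n → n < lS lA lB s t →
        pS uA uB pA pB s t n ∈ S := by
      rintro (i | i) (j | j) h
      · exact fun n h0 h1 => hA (A5 i j h n h0 h1)
      · intro n h0 hn
        have : n < 1 := hn
        omega
      · exact absurd h id
      · exact fun n h0 h1 => hB (B5 i j h n h0 h1)
    exact h _ _ (lt'_of i j hij)
  · intro i j k hij
    have h : ∀ s t r : Fin a ⊕ Fin b, lt' s t → ∀ n, 0 < n → n < lS lA lB s t →
        pS uA uB pA pB s t n ≠ uS uA uB r := by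
      rintro (i | i) (j | j) (k | k) h
      · exact A6 i j k h
      · exact fun n h0 h1 => hne _ (A5 i j h n h0 h1) _ (B2 k)
      · intro n h0 hn
        have : n < 1 := hn
        omega
      · intro n h0 hn
        have : n < 1 := hn
        omega
      · exact absurd h id
      · exact absurd h id
      · exact fun n h0 h1 => (hne _ (A2 k) _ (B5 i j h n h0 h1)).symm
      · exact B6 i j k h
    exact h _ _ _ (lt'_of i j hij)
  · intro i j i' j' t t' hij hij' h0 h1 h0' h1' heq
    have h : ∀ r s r' s' : Fin a ⊕ Fin b, lt' r s → lt' r' s' → 0 < t → t < lS lA lB r s →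
        0 < t' → t' < lS lA lB r' s' → pS uA uB pA pB r s t = pS uA uB pA pB r' s' t' →
        r = r' ∧ s = s' ∧ t = t' := by
      rintro (i | i) (j | j) (i' | i') (j' | j') hr hr' h0 h1 h0' h1' heq
      · obtain ⟨e1, e2, e3⟩ := A7 i j i' j' t t' hr hr' h0 h1 h0' h1' heq
        exact ⟨by rw [e1], by rw [e2], e3⟩
      · have : t' < 1 := h1'
        omega
      · exact absurd hr' id
      · exact absurd heq (hne _ (A5 i j hr t h0 h1) _ (B5 i' j' hr' t' h0' h1'))
      · have : t < 1 := h1
        omega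
      · have : t < 1 := h1
        omega
      · exact absurd hr' id
      · have : t < 1 := h1
        omega
      · exact absurd hr id
      · exact absurd hr id
      · exact absurd hr id
      · exact absurd hr id
      · exact absurd heq.symm (hne _ (A5 i' j' hr' t' h0' h1') _ (B5 i j hr t h0 h1))
      · have : t' < 1 := h1'
        omega
      · exact absurd hr' id
      · obtain ⟨e1, e2, e3⟩ := B7 i j i' j' t t' hr hr' h0 h1 h0' h1' heq
        exact ⟨by rw [e1], by rw [e2], e3⟩
    obtain ⟨e1, e2, e3⟩ := h _ _ _ _ (lt'_of i j hij) (lt'_of i' j' hij') h0 h1 h0' h1' heq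
    exact ⟨finSumFinEquiv.symm.injective e1, finSumFinEquiv.symm.injective e2, e3⟩

end Pool.Agent.H254R3.NLTCat
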